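import Pool.Agent.H59.L.S8.W363.RS.Ord

set_option autoImplicit false
set_option linter.unusedVariables false
set_option linter.unusedSectionVars false

universe u

open Polynomial Pool.Agent.W558

namespace Pool.Agent.W363.RS

section

variable {k E : Type u} [Field k] [Field E] [Algebra k E] {A O W O' : Subalgebra k E}

/-- The elements of the algebra `O[𝔪/e]`. -/
lemma mem_BB {z e : E} (hQ : Quad O e O') (h : Par O z e) {g : E} (hg : g ∈ BB O e) :
    ∃ c ∈ O, ∃ d ∈ O', g = c + z * e⁻¹ * d := by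
  have hze : z * e⁻¹ ∈ O' := hQ.div z h.pu
  refine Algebra.adjoin_induction (p := fun g _ => ∃ c ∈ O, ∃ d ∈ O', g = c + z * e⁻¹ * d)
    ?_ ?_ ?_ ?_ hg
  · rintro x (hx | ⟨y, hy, rfl⟩)
    · exact ⟨x, hx, 0, O'.zero_mem, by ring⟩
    · obtain ⟨α, hα, β, hβ, h1⟩ := h.gen y hy
      refine ⟨β, hβ, α, hQ.le hα, ?_⟩
      have := hQ.e0
      rw [h1]; field_simp; ring
  · intro r
    exact ⟨_, O.algebraMap_mem r, 0, O'.zero_mem, by ring⟩
  · rintro x y - - ⟨c, hc, d, hd, h1⟩ ⟨c', hc', d', hd', h2⟩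
    refine ⟨c + c', O.add_mem hc hc', d + d', O'.add_mem hd hd', ?_⟩
    rw [h1, h2]; ring
  · rintro x y - - ⟨c, hc, d, hd, h1⟩ ⟨c', hc', d', hd', h2⟩
    refine ⟨c * c', O.mul_mem hc hc', c * d' + d * c' + z * e⁻¹ * d * d', ?_, ?_⟩
    · exact O'.add_mem (O'.add_mem (O'.mul_mem (hQ.le hc) hd') (O'.mul_mem hd (hQ.le hc')))
        (O'.mul_mem (O'.mul_mem hze hd) hd')
    · rw [h1, h2]; ring

/-- The strict transform of a curve which is regular at the point `O`. -/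
theorem GP.quad {z w e u v : E} (g : GP O W z w) (hQ : Quad O e O') (hO : Ad O) (hO' : Ad O')
    (hle : O' ≤ W) (he : ¬ NU W e) (hp : Par O' u v) :
    GP O' W (z * e⁻¹) e ∧ w * e⁻¹ ∈ O' ∧ ¬ NU O' (w * e⁻¹) := by
  have e0 := hQ.e0
  have eO : e ∈ O := hQ.eO.1
  have eO' : e ∈ O' := hQ.le eO
  have hze : z * e⁻¹ ∈ O' := hQ.div z g.par.pu
  have hwe : w * e⁻¹ ∈ O' := hQ.div w g.par.pv
  have hzeW : NU W (z * e⁻¹) := by
    have h1 : NU W (e * (z * e⁻¹)) := by
      have : e * (z * e⁻¹) = z := by field_simp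
      rw [this]; exact g.zW
    rw [NU_mul_iff (hle eO') (hle hze)] at h1
    exact h1.resolve_left he
  have hzeO : NU O' (z * e⁻¹) := hzeW.of_le hle hze
  obtain ⟨a, ha, b, hb, h1⟩ := g.par.gen e hQ.eO
  have h2 : a * (z * e⁻¹) + b * (w * e⁻¹) = 1 := by
    have h3 : a * (z * e⁻¹) + b * (w * e⁻¹) = (a * z + b * w) * e⁻¹ := by ring
    rw [h3, ← h1, mul_inv_cancel₀ e0]
  have h3 : ¬ NU O' (b * (w * e⁻¹)) := by
    intro h4
    have h5 := hO' _ _ (hzeO.mul_left (hQ.le ha)) h4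
    rw [h2] at h5
    exact not_NU_one h5
  have hw1 : ¬ NU O' (w * e⁻¹) := fun h4 => h3 (h4.mul_left (hQ.le hb))
  have hb1 : ¬ NU O b := fun h4 => h3 ((hQ.nu b h4).mul_right hwe)
  have hb2 := (not_NU_iff hb).1 hb1
  have hpar : Par O z e := by
    have h4 := g.par.symm.change hO hb hb2.1 hb2.2 ha (by
      have : b * w + a * z = e := by rw [h1]; ring
      rw [this]; exact e0)
    have h5 : b * w + a * z = e := by rw [h1]; ring
    rw [h5] at h4
    exact h4.symm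
  refine ⟨⟨hzeW, he, ?_⟩, hwe, hw1⟩
  refine Par_of_gen hp hO' hzeO (hQ.nu e hQ.eO) (mul_ne_zero g.par.u0 (inv_ne_zero e0)) e0 ?_
  intro x hx
  obtain ⟨p, hp, q, hq, hq0, hqi, hxpq⟩ := hQ.frac x hx.1
  obtain ⟨c, hc, d, hd, h6⟩ := mem_BB hQ hpar hp
  have hBB : BB O e ≤ O' := by
    refine Algebra.adjoin_le ?_
    rintro y (hy | ⟨y', hy', rfl⟩)
    · exact hQ.le hy
    · exact hQ.div _ hy'
  have h7 : NU O' p := by
    have h8 := hx.mul_right (hBB hq)
    rwa [hxpq, inv_mul_cancel_right₀ hq0] at h8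
  have h8 : NU O' c := by
    have h9 := hO'.sub h7 (hzeO.mul_right hd)
    rwa [h6, add_sub_cancel_right] at h9
  have h9 : NU O c := by
    by_contra hn
    have h10 := (not_NU_iff hc).1 hn
    exact not_NU_of_inv h10.1 (hQ.le h10.2) h8
  obtain ⟨α, hα, β, hβ, h10⟩ := hpar.gen c h9
  refine ⟨(α * e + d) * q⁻¹, O'.mul_mem (O'.add_mem (O'.mul_mem (hQ.le hα) eO') hd) hqi,
    β * q⁻¹, O'.mul_mem (hQ.le hβ) hqi, ?_⟩
  rw [hxpq, h6, h10]
  field_simp
  ring

/-- The order drops by one. -/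
theorem HO.quad {z w e u v : E} (hA : Sf A) (hPt : IsPt A O) (hW : Ad W) (g : GP O W z w)
    (hQ : Quad O e O') (hO' : Ad O')
    (hle : O' ≤ W) (he : ¬ NU W e) (hp : Par O' u v) {n : ℕ} {x : E} (h : HO O W (n + 1) x) :
    HO O' W n (x * e⁻¹) := by
  have hO : Ad O := hPt.loc
  have hleO : O ≤ W := hQ.le.trans hle
  obtain ⟨g', hwe, hw1⟩ := g.quad hQ hO hO' hle he hp
  have hx : NU O x := h.nonunit hleO hO
  have hxW : ¬ NU W x := by
    intro h1
    obtain ⟨z1, w1, ε, r, g1, hε, hu, hr, hrW, e1⟩ := h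
    have h2 : NU W (ε * w1 ^ (n + 1)) := by
      have := hW.sub h1 hrW
      rwa [e1, add_sub_cancel_right] at this
    rw [NU_mul_iff (hleO hε) (hleO (O.pow_mem g1.par.pv.1 _))] at h2
    rcases h2 with h2 | h2
    · exact not_NU_of_unit hleO hε hu h2
    · exact not_NU_pow (hleO g1.par.pv.1) g1.wW _ h2
  obtain ⟨m, ε, a, hε, hε1, ha, h1⟩ := exists_form hA hPt hleO g hx.1 hxW
  have hm : n + 1 = m := h.unique hleO hO hW (g.ho hleO hε hε1 ha h1)
  subst hm
  have e0 := hQ.e0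
  have hεO' : ¬ NU O' ε := by
    have h2 := (not_NU_iff hε).1 hε1
    exact not_NU_of_inv h2.1 (hQ.le h2.2)
  refine ⟨z * e⁻¹, e, ε * (w * e⁻¹) ^ (n + 1), a * (z * e⁻¹), g',
    O'.mul_mem (hQ.le hε) (O'.pow_mem hwe _),
    not_NU_mul (hQ.le hε) (O'.pow_mem hwe _) hεO' (not_NU_pow hwe hw1 _),
    O'.mul_mem (hQ.le ha) g'.par.pu.1, g'.zW.mul_left (hle (hQ.le ha)), ?_⟩
  rw [h1, mul_pow, pow_succ e⁻¹]
  have h2 : (e⁻¹) ^ n * e ^ n = 1 := by rw [← mul_pow, inv_mul_cancel₀ e0, one_pow]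
  linear_combination (- ε * w ^ (n + 1) * e⁻¹) * h2

end

section orders

variable {k E : Type u} [Field k] [Field E] [Algebra k E]

open Classical in
/-- The order. -/
noncomputable def ord (O W : Subalgebra k E) (x : E) : ℕ :=
  if h : ∃ n, HO O W n x then h.choose else 0

lemma ord_eq {O W : Subalgebra k E} (hle : O ≤ W) (hO : Ad O) (hW : Ad W) {n : ℕ} {x : E}
    (h : HO O W n x) : ord O W x = n := by
  have h1 : ∃ n, HO O W n x := ⟨n, h⟩
  unfold ord
  rw [dif_pos h1]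
  exact h1.choose_spec.unique hle hO hW h

open Classical in
/-- The order of the boundary component `i` at a point, restricted to the curve `W`. -/
noncomputable def cc (s : SM k E) (W O : Subalgebra k E) (i : s.I) : ℕ :=
  if h : ∃ t, IsPt (s.M.A t) O then ord O W (s.M.x h.choose i) else 0

lemma Good1.gp {O W : Subalgebra k E} (h : Good1 O W) : ∃ z w, GP O W z w := by
  obtain ⟨z, w, h1, h2, h3⟩ := h
  exact ⟨z, w, h1, h2, h3⟩

/-- The hypotheses on the surface and the curve. -/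
structure PP (W : Subalgebra k E) (s : SM k E) : Prop where
  wd : s.Wd W
  nx : ∀ t i, s.M.A t ≤ W → ¬ NU W (s.M.x t i)
  good : ∀ t O, IsPt (s.M.A t) O → O ≤ W → Good1 O W

variable {W : Subalgebra k E} {s : SM k E}

lemma PP.ad (h : PP W s) {t : s.T} (ht : s.M.A t ≤ W) : Ad W := (h.wd t ht).loc

/-- The order does not depend on the chart. -/
lemma PP.cc_spec (h : PP W s) {t : s.T} {O : Subalgebra k E} (hO : IsPt (s.M.A t) O)
    (hle : O ≤ W) (i : s.I) : HO O W (cc s W O i) (s.M.x t i) := by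
  have h1 : ∃ t, IsPt (s.M.A t) O := ⟨t, hO⟩
  have hW : Ad W := h.ad (hO.le.trans hle)
  have key : ∀ t, IsPt (s.M.A t) O → ∃ n, HO O W n (s.M.x t i) := by
    intro t ht
    obtain ⟨z, w, g⟩ := Good1.gp (h.good t O ht hle)
    obtain ⟨n, ε, a, hε, hε1, ha, h2⟩ := exists_form (s.sf t) ht hle g (ht.le (s.M.xA t i))
      (h.nx t i (ht.le.trans hle))
    exact ⟨n, g.ho hle hε hε1 ha h2⟩
  obtain ⟨n, hn⟩ := key h1.choose h1.choose_spec
  have h2 : cc s W O i = n := by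
    unfold cc
    rw [dif_pos h1]
    exact ord_eq hle hO.loc hW hn
  rw [h2]
  have h3 : s.M.x t i / s.M.x h1.choose i ∈ O := s.M.ratio h1.choose_spec.le hO.le i
  have h4 : s.M.x h1.choose i / s.M.x t i ∈ O := s.M.ratio hO.le h1.choose_spec.le i
  have h5 := hn.mul_unit hle h3 (not_NU_of_inv (div_ne_zero (s.M.x0 _ _) (s.M.x0 _ _))
    (by rw [inv_div]; exact h4))
  rwa [div_mul_cancel₀ _ (s.M.x0 _ _)] at h5

lemma PP.cc_eq (h : PP W s) {t : s.T} {O : Subalgebra k E} (hO : IsPt (s.M.A t) O)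
    (hle : O ≤ W) {i : s.I} {n : ℕ} (h1 : HO O W n (s.M.x t i)) : cc s W O i = n :=
  (h.cc_spec hO hle i).unique hle hO.loc (h.ad (hO.le.trans hle)) h1

/-- The label. -/
noncomputable def lab (W : Subalgebra k E) (s : SM k E) (O : Subalgebra k E) : ℕ :=
  ∑ i, cc s W O i ^ 2

/-- The bad points. -/
def Bad (W : Subalgebra k E) (s : SM k E) : Set (Subalgebra k E) :=
  {O | (∃ t, IsPt (s.M.A t) O) ∧ O ≤ W ∧ 2 ≤ ∑ i, cc s W O i}

lemma HO_zero_of_unit {O : Subalgebra k E} {z w : E} (hle : O ≤ W) (g : GP O W z w) {x : E}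
    (hx : x ∈ O) (hx1 : ¬ NU O x) : HO O W 0 x :=
  ⟨z, w, x, 0, g, hx, hx1, O.zero_mem, NU.zero, by simp⟩

lemma bad_finite (hfin : S_fin.{u}) (h2 : Algebra.trdeg k E = 2) (h : PP W s) :
    (Bad W s).Finite := by
  have hfT := s.finT
  have h1 : Bad W s ⊆ ⋃ t : s.T, ⋃ i : s.I,
      {O | s.M.A t ≤ W ∧ IsPt (s.M.A t) O ∧ O ≤ W ∧ NU O (s.M.x t i)} := by
    rintro O ⟨⟨t, ht⟩, hle, hs⟩
    obtain ⟨i, -, hi⟩ : ∃ i ∈ (Finset.univ : Finset s.I), cc s W O i ≠ 0 := by
      by_contra hcon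
      push Not at hcon
      rw [Finset.sum_eq_zero hcon] at hs
      omega
    obtain ⟨n, hn⟩ := Nat.exists_eq_succ_of_ne_zero hi
    have h3 := h.cc_spec ht hle i
    rw [hn] at h3
    simp only [Set.mem_iUnion]
    exact ⟨t, i, ht.le.trans hle, ht, hle, HO.nonunit hle ht.loc h3⟩
  refine Set.Finite.subset (Set.finite_iUnion fun t => Set.finite_iUnion fun i => ?_) h1
  by_cases ht : s.M.A t ≤ W
  · refine ((hfin k E h2 (s.M.A t) (s.sf t)).1 W (h.wd t ht) (s.M.x t i) (s.M.xA t i)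
      (h.nx t i ht)).subset ?_
    rintro O ⟨-, h3⟩
    exact h3
  · convert Set.finite_empty
    ext O
    simp [ht]

end orders

section step

variable {k E : Type u} [Field k] [Field E] [Algebra k E] [PerfectField k]

/-- One blowup. -/
theorem step (hpar : S_par.{u}) (hblow : S_blow.{u}) (h2 : Algebra.trdeg k E = 2)
    {W : Subalgebra k E} {s : SM k E} (h : PP W s) {O : Subalgebra k E} (hO : O ∈ Bad W s) :
    ∃ s' : SM k E, s.Le s' ∧ PP W s' ∧ ∀ O' ∈ Bad W s',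
      (O' ∈ Bad W s ∧ O' ≠ O ∧ lab W s' O' = lab W s O') ∨ lab W s' O' < lab W s O := by
  obtain ⟨hOt, hOW, hO2⟩ := hO
  obtain ⟨T', hT', M', π, W', hsf, hirr, hB, hLe⟩ := exists_step hblow h2 s hOt
  obtain ⟨t0, ht0⟩ := hOt
  have hWad : Ad W := h.ad (ht0.le.trans hOW)
  let s' : SM k E := ⟨T', Option s.I, hT', inferInstance, M', W', hsf, hirr⟩
  have hwd' : s'.Wd W := SM.Wd.mono hLe h.wd
  have hnx' : ∀ (t' : T') (i : Option s.I), M'.A t' ≤ W → ¬ NU W (M'.x t' i) :=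
    fun t' i ht' => hB.not_NU ⟨t0, ht0⟩ h.wd h.nx t' i ht'
  obtain ⟨z, w, g⟩ := Good1.gp (h.good t0 O ht0 hOW)
  -- the new points
  have hnew : ∀ (t' : T') (O' : Subalgebra k E), IsPt (M'.A t') O' → O' ≤ W →
      Quad O (M'.x t' none) O' → ∃ u v, Par O' u v := by
    intro t' O' h3 h4 h5
    obtain ⟨u, v, _, -, -, -, -, -, h6, -⟩ := hpar k E h2 (M'.A t') O' (hsf t') h3
    exact ⟨u, v, h6⟩
  have hPP' : PP W s' := by
    refine ⟨hwd', hnx', ?_⟩
    intro t' O' h3 h4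
    rcases hB.pt t' O' h3 with ⟨-, h5, -⟩ | ⟨h5, h6⟩
    · exact h.good _ _ h5 h4
    · obtain ⟨u, v, hp⟩ := hnew t' O' h3 h4 h6
      obtain ⟨g', -, -⟩ := g.quad h6 ht0.loc h3.loc h4 (hnx' t' none (h3.le.trans h4)) hp
      exact ⟨_, _, g'.zW, g'.wW, g'.par⟩
  refine ⟨s', hLe, hPP', ?_⟩
  rintro O' ⟨⟨t', hO't'⟩, hO'W, hO'2⟩
  have hO't : IsPt (M'.A t') O' := hO't'
  have hsum : ∀ f : s'.I → ℕ, ∑ i, f i = f (none : Option s.I) + ∑ i : s.I, f (some i : Option s.I) :=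
    fun f => Fintype.sum_option f
  rcases hB.pt t' O' hO't with ⟨h3, h4, h5⟩ | ⟨h3, h4⟩
  · -- old points
    left
    obtain ⟨z', w', g'⟩ := Good1.gp (h.good _ _ h4 hO'W)
    have hc0 : cc s' W O' (none : Option s.I) = 0 :=
      hPP'.cc_eq hO't' hO'W (HO_zero_of_unit hO'W g' (hO't.le (M'.xA _ _)) h3)
    have hci : ∀ i : s.I, cc s' W O' (some i : Option s.I) = cc s W O' i := by
      intro i
      refine hPP'.cc_eq hO't' hO'W ?_
      have h6 := h.cc_spec h4 hO'W i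
      change HO O' W _ (M'.x t' (some i))
      by_cases h7 : NU O (s.M.x t0 i)
      · have h8 := hB.thr i ⟨t0, ht0, h7⟩ t'
        have h9 := (not_NU_iff (hO't.le (M'.xA t' none))).1 h3
        have h10 : M'.x t' (some i) = (M'.x t' none)⁻¹ * s.M.x (π t') i := by
          rw [← h8]
          have := h9.1
          field_simp
        rw [h10]
        refine h6.mul_unit hO'W h9.2 (not_NU_of_inv (inv_ne_zero h9.1) ?_)
        rw [inv_inv]
        exact hO't.le (M'.xA _ _)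
      · rw [hB.nthr i ⟨t0, ht0, h7⟩ t']
        exact h6
    have hs1 : ∑ i, cc s' W O' i = ∑ i, cc s W O' i := by
      rw [hsum, hc0, zero_add]
      exact Finset.sum_congr rfl fun i _ => hci i
    refine ⟨⟨⟨π t', h4⟩, hO'W, ?_⟩, h5, ?_⟩
    · rw [← hs1]; exact hO'2
    · unfold lab
      rw [hsum, hc0, zero_pow two_ne_zero, zero_add]
      exact Finset.sum_congr rfl fun i _ => by rw [hci]
  · -- new points
    right
    obtain ⟨u, v, hp⟩ := hnew t' O' hO't hO'W h4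
    have heW : ¬ NU W (M'.x t' none) := hnx' t' none (hO't.le.trans hO'W)
    obtain ⟨g', hwe, hw1⟩ := g.quad h4 ht0.loc hO't.loc hO'W heW hp
    have hc0 : cc s' W O' (none : Option s.I) = 1 :=
      hPP'.cc_eq hO't' hO'W ⟨_, _, 1, 0, g', O'.one_mem, not_NU_one, O'.zero_mem, NU.zero, by
        change M'.x t' none = _
        ring⟩
    have hci : ∀ i : s.I, cc s' W O' (some i : Option s.I) = cc s W O i - 1 := by
      intro i
      refine hPP'.cc_eq hO't' hO'W ?_
      have h6 := h.cc_spec h3 hOW i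
      change HO O' W _ (M'.x t' (some i))
      rcases Nat.eq_zero_or_pos (cc s W O i) with h7 | h7
      · rw [h7] at h6 ⊢
        have h8 : ¬ NU O (s.M.x (π t') i) := h6.unit hOW ht0.loc
        rw [hB.nthr i ⟨_, h3, h8⟩ t']
        have h9 := (not_NU_iff (h3.le (s.M.xA (π t') i))).1 h8
        exact HO_zero_of_unit hO'W g' (h4.le (h3.le (s.M.xA _ _)))
          (not_NU_of_inv h9.1 (h4.le h9.2))
      · obtain ⟨n, hn⟩ : ∃ n, cc s W O i = n + 1 := ⟨cc s W O i - 1, by omega⟩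
        rw [hn] at h6 ⊢
        have h8 : NU O (s.M.x (π t') i) := h6.nonunit hOW ht0.loc
        have h9 := hB.thr i ⟨_, h3, h8⟩ t'
        have h10 : M'.x t' (some i) = s.M.x (π t') i * (M'.x t' none)⁻¹ := by
          rw [← h9]
          have := M'.x0 t' none
          field_simp
        rw [h10, Nat.add_sub_cancel]
        exact HO.quad (s.sf (π t')) h3 hWad g h4 hO't.loc hO'W heW hp h6
    unfold lab
    rw [hsum, hc0]
    have h5 : ∀ i : s.I, cc s' W O' (some i : Option s.I) ^ 2 + cc s W O i ≤ cc s W O i ^ 2 := by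
      intro i
      rw [hci]
      rcases Nat.eq_zero_or_pos (cc s W O i) with h7 | h7
      · rw [h7]; simp
      · obtain ⟨n, hn⟩ : ∃ n, cc s W O i = n + 1 := ⟨cc s W O i - 1, by omega⟩
        rw [hn, Nat.add_sub_cancel]
        nlinarith
    have h6 := Finset.sum_le_sum (s := (Finset.univ : Finset s.I)) fun i _ => h5 i
    rw [Finset.sum_add_distrib] at h6
    omega

end step

/-- PH2: after finitely many blowups of points the curve `W` is transversal to the boundary. -/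
theorem main (hpar : S_par.{u}) (hblow : S_blow.{u}) (hfin : S_fin.{u})
    (hterm : S_term.{max 1 u, u, 0}) : S_ph2.{u} := by
  intro k E _ _ _ _ h2 s W hwd hnx hgood
  obtain ⟨s', h1, h3, h4⟩ := hterm (SM k E) (Subalgebra k E) ℕ SM.Le (Bad W) (lab W)
    (· < ·) (PP W) SM.Le.refl (fun _ _ _ => SM.Le.trans) wellFounded_lt
    (fun s hs => bad_finite hfin h2 hs)
    (fun s hs O hO => by
      obtain ⟨s', h5, h6, h7⟩ := step hpar hblow h2 hs hO
      exact ⟨s', h5, h6, fun O' hO' => h7 O' hO'⟩) s ⟨hwd, hnx, hgood⟩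
  refine ⟨s', h1, h3.nx, ?_⟩
  intro t O hO hOW
  have hWad : Ad W := h3.ad (hO.le.trans hOW)
  obtain ⟨z, w, g⟩ := Good1.gp (h3.good t O hO hOW)
  have h5 : ∑ i, cc s' W O i < 2 := by
    by_contra hcon
    push Not at hcon
    have : O ∈ Bad W s' := ⟨⟨t, hO⟩, hOW, hcon⟩
    rw [h4] at this
    exact this
  refine ⟨z, g.zW, ?_⟩
  by_cases h6 : ∀ i, cc s' W O i = 0
  · right
    refine ⟨⟨w, g.wW, g.par⟩, fun j => ?_⟩
    have h7 := h3.cc_spec hO hOW j
    rw [h6] at h7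
    exact h7.unit hOW hO.loc
  · left
    push Not at h6
    obtain ⟨i, hi⟩ := h6
    have h7 : cc s' W O i ≤ ∑ i, cc s' W O i :=
      Finset.single_le_sum (f := fun i => cc s' W O i) (fun _ _ => Nat.zero_le _)
        (Finset.mem_univ i)
    have hi1 : cc s' W O i = 1 := by omega
    have hj : ∀ j, j ≠ i → cc s' W O j = 0 := by
      intro j hne
      by_contra hcon
      have h8 : cc s' W O j + cc s' W O i ≤ ∑ i, cc s' W O i := by
        classical
        rw [← Finset.sum_pair hne]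
        exact Finset.sum_le_sum_of_subset (Finset.subset_univ _)
      omega
    refine ⟨i, ?_, ?_⟩
    · have h8 := h3.cc_spec hO hOW i
      rw [hi1] at h8
      obtain ⟨n, ε, a, hε, hε1, ha, h9⟩ := exists_form (s'.sf t) hO hOW g (hO.le (s'.M.xA t i))
        (h3.nx t i (hO.le.trans hOW))
      have h10 : 1 = n := h8.unique hOW hO.loc hWad (g.ho hOW hε hε1 ha h9)
      subst h10
      rw [pow_one] at h9
      have h11 := (not_NU_iff hε).1 hε1
      have h12 := g.par.symm.change hO.loc hε h11.1 h11.2 ha (by rw [← h9]; exact s'.M.x0 t i)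
      rw [← h9] at h12
      exact h12.symm
    · intro j hne
      have h8 := h3.cc_spec hO hOW j
      rw [hj j hne] at h8
      exact h8.unit hOW hO.loc

end Pool.Agent.W363.RS
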